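import Mathlib
import Pool.Agent.W307.RG.MqTw

/-!
# Ranks over a multiquadratic field of the quadratic twists of an elliptic curve

Let `F` be a number field generated by square roots of rational integers and let `E` be an elliptic
curve over `ℚ` with all its points of order two rational. We consider the twists of `E` over `F` by
the quadratic characters of `F` attached to `F(√D)`, where `D = D(t)` are the values of a product of
pairwise non-proportional linear polynomials with integer coefficients (for example `D(t) = t`). All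
the moments of `2 ^ rank E^D(t) (F)` over the integers `t` of an interval `(N, N + M]` with
`|N| ≤ M ^ L` are bounded.
-/

namespace Pool.Agent.Results.MP_50bb2e_nt.MultiquadraticTwistMoments

open Finset

/-- the curve `y² = x³ + A x + B` over the field `F` -/
def E (F : Type) [Field F] (A B : ℤ) : WeierstrassCurve F := ⟨0, 0, 0, (A : F), (B : F)⟩

/-- the quadratic twist of `y² = x³ + A x + B` by `d`: the curve `y² = x³ + d² A x + d³ B` -/
def Tw (F : Type) [Field F] (A B d : ℤ) : WeierstrassCurve F := E F (d ^ 2 * A) (d ^ 3 * B)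

/-- `D(t) = ∏ i, (γ i * t + δ i)` -/
def D {m : ℕ} (γ δ : Fin m → ℤ) (t : ℤ) : ℤ := ∏ i, (γ i * t + δ i)

open Classical in
/-- **Theorem.** Let `F` be a number field generated by the square roots `x i` of `r` nonzero
integers `d i`. Let `E : y² = x³ + A x + B` be an elliptic curve with
`x³ + A x + B = (x - e₁) (x - e₂) (x - e₃)`, all the `e_i` integers, and `D(t)` the product of the
pairwise non-proportional polynomials `γ_i t + δ_i`, `γ_i ≠ 0`. Then for all `k` and `L` there is `C`
such that for all integers `N` and `M ≥ 1` with `|N| ≤ M ^ L` the sum of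
`(2 ^ rank E^D(t) (F)) ^ k` over the `t` with `N < t ≤ N + M`, `D(t) ≠ 0`, is at most `C * M`. -/
theorem result (F : Type) [Field F] [NumberField F] (r : ℕ) (x : Fin r → F) (d : Fin r → ℤ)
    (hx : ∀ i, x i ^ 2 = (d i : F)) (hd : ∀ i, d i ≠ 0)
    (hF : IntermediateField.adjoin ℚ (Set.range x) = ⊤)
    (A B e₁ e₂ e₃ : ℤ) (hE : 4 * A ^ 3 + 27 * B ^ 2 ≠ 0)
    (he : ∀ x : ℤ, x ^ 3 + A * x + B = (x - e₁) * (x - e₂) * (x - e₃))
    (m : ℕ) (γ δ : Fin m → ℤ) (hγ : ∀ i, γ i ≠ 0)
    (hγδ : ∀ i j, i ≠ j → γ i * δ j ≠ γ j * δ i) (k L : ℕ) :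
    ∃ C : ℝ, ∀ (N : ℤ) (M : ℕ), 1 ≤ M → |N| ≤ (M : ℤ) ^ L →
      ∑ t ∈ (Ioc N (N + M)).filter (fun t => D γ δ t ≠ 0),
        ((2 : ℝ) ^ Module.finrank ℤ (Tw F A B (D γ δ t)).toAffine.Point) ^ k ≤ C * M :=
  Pool.Agent.W307.RG.mqtw F r x d hx hd hF hE he m γ δ hγ hγδ k L

end Pool.Agent.Results.MP_50bb2e_nt.MultiquadraticTwistMoments
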